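import Pool.Agent.helper79.SX.Spec

/-! # Project sx (MP_5628fe_nt): module CH1 (Chebyshev's combination) -/

set_option autoImplicit false

open Finset ArithmeticFunction

namespace Pool.Agent.SX

theorem CH1_lf (n : ℕ) :
    ∑ d ∈ Icc 1 n, Λ d * ((n / d : ℕ) : ℝ) = Real.log (n.factorial : ℝ) := by
  have e1 : ∀ d ∈ Icc 1 n, Λ d * ((n / d : ℕ) : ℝ) = ∑ m ∈ Icc 1 n, if d ∣ m then Λ d else 0 := by
    intro d hd
    rw [← sum_filter, sum_const, nsmul_eq_mul, mul_comm]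
    congr 2
    have : #{x ∈ Ioc 0 n | d ∣ x} = n / d := Nat.Ioc_filter_dvd_card_eq_div n d
    rw [← this]
    rfl
  rw [sum_congr rfl e1, sum_comm]
  have e2 : ∀ m ∈ Icc 1 n, (∑ d ∈ Icc 1 n, if d ∣ m then Λ d else 0) = Real.log m := by
    intro m hm
    rw [mem_Icc] at hm
    rw [← sum_filter]
    have e3 : (Icc 1 n).filter (fun d => d ∣ m) = m.divisors := by
      ext d
      rw [mem_filter, mem_Icc, Nat.mem_divisors]
      constructor
      · rintro ⟨_, h⟩; exact ⟨h, by omega⟩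
      · rintro ⟨h, _⟩
        have h1 := Nat.le_of_dvd (by omega) h
        have h2 := Nat.pos_of_dvd_of_pos h (by omega)
        exact ⟨⟨h2, by omega⟩, h⟩
    rw [e3, vonMangoldt_sum]
  rw [sum_congr rfl e2]
  clear e1 e2
  induction n with
  | zero => simp
  | succ n ih =>
    rw [sum_Icc_succ_top (by omega), ih, Nat.factorial_succ]
    push_cast
    rw [Real.log_mul (by positivity) (by positivity), add_comm]

theorem CH1_lfk (N k : ℕ) (hk : 1 ≤ k) :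
    Real.log ((N / k).factorial : ℝ) = ∑ d ∈ Icc 1 N, Λ d * (((N / d) / k : ℕ) : ℝ) := by
  rw [← CH1_lf]
  have h1 : ∀ d ∈ Icc 1 (N / k), Λ d * ((N / k / d : ℕ) : ℝ) = Λ d * ((N / d / k : ℕ) : ℝ) := by
    intro d _
    rw [Nat.div_div_eq_div_mul, Nat.div_div_eq_div_mul, mul_comm k d]
  rw [sum_congr rfl h1]
  refine sum_subset (Icc_subset_Icc_right (Nat.div_le_self N k)) fun d hd hd' => ?_
  rw [mem_Icc] at hd hd'
  have h2 : N / k < d := by omega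
  have h3 : N / d / k = 0 := by
    rw [Nat.div_div_eq_div_mul, mul_comm, ← Nat.div_div_eq_div_mul]
    exact Nat.div_eq_of_lt h2
  rw [h3, Nat.cast_zero, mul_zero]

theorem CH1_psi (N k : ℕ) (hk : 1 ≤ k) :
    Chebyshev.psi ((N / k : ℕ) : ℝ) = ∑ d ∈ Icc 1 N, Λ d * (if k ≤ N / d then 1 else 0) := by
  unfold Chebyshev.psi
  rw [Nat.floor_natCast]
  have h1 : ∑ d ∈ Ioc 0 (N / k), Λ d =
      ∑ d ∈ Ioc 0 (N / k), Λ d * (if k ≤ N / d then 1 else 0) := by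
    refine sum_congr rfl fun d hd => ?_
    rw [mem_Ioc] at hd
    have h2 : k ≤ N / d := by
      rw [Nat.le_div_iff_mul_le (by omega)]
      have h3 := (Nat.le_div_iff_mul_le (by omega : 0 < k)).1 hd.2
      rw [mul_comm]
      exact h3
    rw [if_pos h2, mul_one]
  rw [h1]
  refine sum_subset ?_ fun d hd hd' => ?_
  · intro d hd
    rw [mem_Ioc] at hd
    rw [mem_Icc]
    have := Nat.div_le_self N k
    omega
  · rw [mem_Icc] at hd
    rw [mem_Ioc] at hd'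
    have h2 : N / k < d := by omega
    have h3 : N / d < k := by
      rw [Nat.div_lt_iff_lt_mul (by omega)] at h2 ⊢
      rw [mul_comm]
      exact h2
    rw [if_neg (by omega), mul_zero]

theorem CH1_FC (N : ℕ) : FC N = ∑ d ∈ Icc 1 N, Λ d * (((N / d : ℕ) : ℝ) -
    ((N / d / 2 : ℕ) : ℝ) - ((N / d / 3 : ℕ) : ℝ) - ((N / d / 5 : ℕ) : ℝ) +
      ((N / d / 30 : ℕ) : ℝ)) := by
  unfold FC
  rw [← CH1_lf N, CH1_lfk N 2 (by norm_num), CH1_lfk N 3 (by norm_num),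
    CH1_lfk N 5 (by norm_num), CH1_lfk N 30 (by norm_num), ← sum_sub_distrib, ← sum_sub_distrib,
    ← sum_sub_distrib, ← sum_add_distrib]
  refine sum_congr rfl fun d _ => ?_
  ring

theorem CH1_E (t : ℕ) : t / 2 + t / 3 + t / 5 ≤ t + t / 30 ∧
    t + t / 30 ≤ t / 2 + t / 3 + t / 5 + 1 ∧
    (1 ≤ t → t < 6 → t / 2 + t / 3 + t / 5 + 1 ≤ t + t / 30) ∧
    (7 ≤ t → t < 10 → t / 2 + t / 3 + t / 5 + 1 ≤ t + t / 30) := by
  obtain ⟨s, r, hr, rfl⟩ : ∃ s r, r < 30 ∧ t = 30 * s + r :=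
    ⟨t / 30, t % 30, Nat.mod_lt _ (by norm_num), (Nat.div_add_mod t 30).symm⟩
  interval_cases r <;> omega

theorem CH1 : CH1_stmt := by
  intro N
  have hpsi : Chebyshev.psi N = ∑ d ∈ Icc 1 N, Λ d * (1 : ℝ) := by
    have h := CH1_psi N 1 le_rfl
    rw [Nat.div_one] at h
    rw [h]
    refine sum_congr rfl fun d hd => ?_
    rw [mem_Icc] at hd
    have h2 : 1 ≤ N / d := (Nat.one_le_div_iff (by omega)).2 hd.2
    rw [if_pos h2]
  have h6 := CH1_psi N 6 (by norm_num)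
  have h7 := CH1_psi N 7 (by norm_num)
  have h10 := CH1_psi N 10 (by norm_num)
  rw [CH1_FC N]
  refine ⟨?_, ?_, ?_⟩
  · rw [hpsi]
    refine sum_le_sum fun d hd => mul_le_mul_of_nonneg_left ?_ vonMangoldt_nonneg
    obtain ⟨e1, e2, e3, e4⟩ := CH1_E (N / d)
    generalize N / d = t at e1 e2 e3 e4
    have e2' : (t : ℝ) + ((t / 30 : ℕ) : ℝ) ≤ ((t / 2 : ℕ) : ℝ) + ((t / 3 : ℕ) : ℝ) +
        ((t / 5 : ℕ) : ℝ) + 1 := by exact_mod_cast e2
    linarith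
  · rw [hpsi, h6, ← sum_sub_distrib]
    refine sum_le_sum fun d hd => ?_
    rw [← mul_sub]
    refine mul_le_mul_of_nonneg_left ?_ vonMangoldt_nonneg
    rw [mem_Icc] at hd
    have h2 : 1 ≤ N / d := (Nat.one_le_div_iff (by omega)).2 hd.2
    obtain ⟨e1, e2, e3, e4⟩ := CH1_E (N / d)
    generalize N / d = t at e1 e2 e3 e4 h2
    have e1' : ((t / 2 : ℕ) : ℝ) + ((t / 3 : ℕ) : ℝ) + ((t / 5 : ℕ) : ℝ) ≤
        (t : ℝ) + ((t / 30 : ℕ) : ℝ) := by exact_mod_cast e1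
    by_cases h : 6 ≤ t
    · rw [if_pos h]
      linarith
    · rw [if_neg h]
      have e3' : ((t / 2 : ℕ) : ℝ) + ((t / 3 : ℕ) : ℝ) + ((t / 5 : ℕ) : ℝ) + 1 ≤
        (t : ℝ) + ((t / 30 : ℕ) : ℝ) := by exact_mod_cast e3 h2 (by omega)
      linarith
  · rw [hpsi, h6, h7, h10, ← sum_sub_distrib, ← sum_add_distrib, ← sum_sub_distrib]
    refine sum_le_sum fun d hd => ?_
    rw [← mul_sub, ← mul_add, ← mul_sub]
    refine mul_le_mul_of_nonneg_left ?_ vonMangoldt_nonneg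
    rw [mem_Icc] at hd
    have h2 : 1 ≤ N / d := (Nat.one_le_div_iff (by omega)).2 hd.2
    obtain ⟨e1, e2, e3, e4⟩ := CH1_E (N / d)
    generalize N / d = t at e1 e2 e3 e4 h2
    have e1' : ((t / 2 : ℕ) : ℝ) + ((t / 3 : ℕ) : ℝ) + ((t / 5 : ℕ) : ℝ) ≤
        (t : ℝ) + ((t / 30 : ℕ) : ℝ) := by exact_mod_cast e1
    by_cases h : 6 ≤ t
    · rw [if_pos h]
      by_cases h' : 7 ≤ t
      · rw [if_pos h']
        by_cases h'' : 10 ≤ t
        · rw [if_pos h'']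
          linarith
        · rw [if_neg h'']
          have e4' : ((t / 2 : ℕ) : ℝ) + ((t / 3 : ℕ) : ℝ) + ((t / 5 : ℕ) : ℝ) + 1 ≤
            (t : ℝ) + ((t / 30 : ℕ) : ℝ) := by exact_mod_cast e4 h' (by omega)
          linarith
      · rw [if_neg h', if_neg (by omega : ¬ 10 ≤ t)]
        linarith
    · rw [if_neg h, if_neg (by omega : ¬ 7 ≤ t), if_neg (by omega : ¬ 10 ≤ t)]
      have e3' : ((t / 2 : ℕ) : ℝ) + ((t / 3 : ℕ) : ℝ) + ((t / 5 : ℕ) : ℝ) + 1 ≤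
        (t : ℝ) + ((t / 30 : ℕ) : ℝ) := by exact_mod_cast e3 h2 (by omega)
      linarith

end Pool.Agent.SX
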