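import Pool.Agent.helper79.SX.Spec

/-! # Project sx (MP_5628fe_nt): module LPM (a Mertens bound) -/

set_option autoImplicit false

open Finset ArithmeticFunction

namespace Pool.Agent.SX

theorem LPM_lf (n : ℕ) :
    ∑ d ∈ Icc 1 n, Λ d * ((n / d : ℕ) : ℝ) = Real.log (n.factorial : ℝ) := by
  have e1 : ∀ d ∈ Icc 1 n, Λ d * ((n / d : ℕ) : ℝ) = ∑ m ∈ Icc 1 n, if d ∣ m then Λ d else 0 := by
    intro d hd
    rw [← sum_filter, sum_const, nsmul_eq_mul, mul_comm]
    congr 2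
    have : #{x ∈ Ioc 0 n | d ∣ x} = n / d := Nat.Ioc_filter_dvd_card_eq_div n d
    rw [← this]
    rfl
  rw [sum_congr rfl e1, sum_comm]
  have e2 : ∀ m ∈ Icc 1 n, (∑ d ∈ Icc 1 n, if d ∣ m then Λ d else 0) = Real.log m := by
    intro m hm
    rw [mem_Icc] at hm
    rw [← sum_filter]
    have e3 : (Icc 1 n).filter (fun d => d ∣ m) = m.divisors := by
      ext d
      rw [mem_filter, mem_Icc, Nat.mem_divisors]
      constructor
      · rintro ⟨_, h⟩; exact ⟨h, by omega⟩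
      · rintro ⟨h, _⟩
        have h1 := Nat.le_of_dvd (by omega) h
        have h2 := Nat.pos_of_dvd_of_pos h (by omega)
        exact ⟨⟨h2, by omega⟩, h⟩
    rw [e3, vonMangoldt_sum]
  rw [sum_congr rfl e2]
  clear e1 e2
  induction n with
  | zero => simp
  | succ n ih =>
    rw [sum_Icc_succ_top (by omega), ih, Nat.factorial_succ]
    push_cast
    rw [Real.log_mul (by positivity) (by positivity), add_comm]

theorem LPM_up (N : ℕ) :
    (N : ℝ) * ∑ d ∈ Icc 1 N, Λ d / d ≤ Real.log (N.factorial : ℝ) + Chebyshev.psi N := by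
  have h1 : Chebyshev.psi (N : ℝ) = ∑ d ∈ Icc 1 N, Λ d := by
    unfold Chebyshev.psi
    rw [Nat.floor_natCast]
    rfl
  rw [h1, ← LPM_lf, ← sum_add_distrib, mul_sum]
  refine sum_le_sum fun d hd => ?_
  rw [mem_Icc] at hd
  have hd0 : (0 : ℝ) < d := by exact_mod_cast hd.1
  have h2 : (N : ℝ) < d * (((N / d : ℕ) : ℝ) + 1) := by
    exact_mod_cast Nat.lt_mul_div_succ N (by omega : 0 < d)
  have h3 : (N : ℝ) / d ≤ ((N / d : ℕ) : ℝ) + 1 := by
    rw [div_le_iff₀ hd0, mul_comm]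
    exact h2.le
  calc (N : ℝ) * (Λ d / d) = Λ d * ((N : ℝ) / d) := by ring
    _ ≤ Λ d * (((N / d : ℕ) : ℝ) + 1) := mul_le_mul_of_nonneg_left h3 vonMangoldt_nonneg
    _ = Λ d * ((N / d : ℕ) : ℝ) + Λ d := by ring

theorem LPM_lo (N : ℕ) :
    Real.log (N.factorial : ℝ) ≤ (N : ℝ) * ∑ d ∈ Icc 1 N, Λ d / d := by
  rw [← LPM_lf, mul_sum]
  refine sum_le_sum fun d hd => ?_
  calc Λ d * ((N / d : ℕ) : ℝ) ≤ Λ d * ((N : ℝ) / d) :=
        mul_le_mul_of_nonneg_left Nat.cast_div_le vonMangoldt_nonneg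
    _ = (N : ℝ) * (Λ d / d) := by ring

theorem LPM (h2 : CH2_stmt) (h5 : CH5_stmt) : LPM_stmt := by
  intro w t hw hwt
  have hw0 : (0 : ℝ) < w := lt_of_lt_of_le (by norm_num) hw
  have hw' : (262144 : ℝ) ≤ w := by norm_num at hw; exact hw
  set N : ℕ := ⌊t⌋₊ with hN
  set B : ℕ := ⌈w⌉₊ - 1 with hB
  have hc : 2 ^ 18 ≤ ⌈w⌉₊ := by
    have h : ((262144 : ℕ) : ℝ) ≤ (⌈w⌉₊ : ℝ) := le_trans (by exact_mod_cast hw') (Nat.le_ceil w)
    have h' : 262144 ≤ ⌈w⌉₊ := by exact_mod_cast h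
    norm_num
    exact h'
  have hB1 : ⌈w⌉₊ = B + 1 := by omega
  have hB2 : 2 ^ 18 - 1 ≤ B := by omega
  have hwB : w ≤ (B : ℝ) + 1 := by
    have h := Nat.le_ceil w
    rw [hB1] at h
    push_cast at h
    exact h
  have hN1 : 2 ^ 18 ≤ N := Nat.le_floor (by push_cast; exact le_trans hw' hwt)
  have hNt : (N : ℝ) ≤ t := Nat.floor_le (by linarith)
  have hBw : (B : ℝ) < w := by
    have h : B < ⌈w⌉₊ := by omega
    exact Nat.lt_ceil.1 h
  have hBN : B ≤ N := Nat.le_floor (by linarith)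
  -- the sum over primes
  have hsum : ∑ p ∈ pc w t, Real.log p / p ≤
      ∑ d ∈ Icc 1 N, Λ d / d - ∑ d ∈ Icc 1 B, Λ d / d := by
    have e1 : ∑ d ∈ Icc 1 N, Λ d / (d : ℝ) =
        ∑ d ∈ Icc 1 B, Λ d / (d : ℝ) + ∑ d ∈ Ioc B N, Λ d / (d : ℝ) := by
      rw [← sum_union]
      · congr 1
        ext d
        rw [mem_union, mem_Icc, mem_Icc, mem_Ioc]
        omega
      · rw [disjoint_left]
        intro d hd hd'
        rw [mem_Icc] at hd
        rw [mem_Ioc] at hd'
        omega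
    rw [e1, add_sub_cancel_left]
    have e2 : ∑ p ∈ pc w t, Real.log p / p = ∑ p ∈ pc w t, Λ p / (p : ℝ) := by
      refine sum_congr rfl fun p hp => ?_
      unfold pc at hp
      rw [mem_filter] at hp
      rw [vonMangoldt_apply_prime hp.2.1]
    rw [e2]
    refine sum_le_sum_of_subset_of_nonneg ?_ fun d _ _ =>
      div_nonneg vonMangoldt_nonneg (Nat.cast_nonneg d)
    intro p hp
    unfold pc at hp
    rw [mem_filter, mem_range] at hp
    rw [mem_Ioc]
    have h : ⌈w⌉₊ ≤ p := Nat.ceil_le.2 hp.2.2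
    omega
  have hN0 : (0 : ℝ) < N := by
    have : 0 < N := by omega
    exact_mod_cast this
  have hB0 : (0 : ℝ) < B := by
    have : 0 < B := by omega
    exact_mod_cast this
  have hNr : (2 : ℝ) ^ 18 ≤ N := by exact_mod_cast hN1
  have hBr : (262143 : ℝ) ≤ B := by
    have : 262143 ≤ B := by norm_num at hB2; omega
    exact_mod_cast this
  -- upper bound
  have hu : ∑ d ∈ Icc 1 N, Λ d / (d : ℝ) ≤
      Real.log N + 87 / 1000 + (Real.log N / 2 + 1) / N := by
    have e1 := LPM_up N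
    have e2 := (h2 N (by omega)).2
    have e3 := h5 N hNr
    have e4 : (N : ℝ) * ∑ d ∈ Icc 1 N, Λ d / (d : ℝ) ≤
        N * (Real.log N + 87 / 1000 + (Real.log N / 2 + 1) / N) := by
      have e5 : N * (Real.log N + 87 / 1000 + (Real.log N / 2 + 1) / N) =
          N * Real.log N + N * (87 / 1000) + (Real.log N / 2 + 1) := by
        field_simp
      rw [e5]
      linarith
    exact le_of_mul_le_mul_left e4 hN0
  -- lower bound
  have hl : Real.log B - 1 ≤ ∑ d ∈ Icc 1 B, Λ d / (d : ℝ) := by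
    have e1 := LPM_lo B
    have e2 := (h2 B (by omega)).1
    have e6 : 0 ≤ Real.log B := Real.log_nonneg (by linarith)
    have e4 : (B : ℝ) * (Real.log B - 1) ≤ B * ∑ d ∈ Icc 1 B, Λ d / (d : ℝ) := by
      linarith
    exact le_of_mul_le_mul_left e4 hB0
  -- logarithms
  have l1 : Real.log N ≤ Real.log t := Real.log_le_log hN0 hNt
  have l2 : Real.log w ≤ Real.log B + 1 / B := by
    have e1 : Real.log w ≤ Real.log (B * (1 + 1 / B)) := by
      refine Real.log_le_log hw0 ?_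
      rw [mul_add, mul_one, mul_one_div_cancel hB0.ne']
      exact hwB
    rw [Real.log_mul hB0.ne' (by positivity)] at e1
    have e2 : Real.log (1 + 1 / (B : ℝ)) ≤ 1 / B := by
      have := Real.log_le_sub_one_of_pos (by positivity : (0 : ℝ) < 1 + 1 / B)
      linarith
    linarith
  have l3 : (Real.log N / 2 + 1) / N ≤ 1 / 10000 := by
    have e1 : Real.log (N / 2 ^ 18) ≤ N / 2 ^ 18 - 1 :=
      Real.log_le_sub_one_of_pos (by positivity)
    rw [Real.log_div hN0.ne' (by positivity), Real.log_pow] at e1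
    have e2 := Real.log_two_lt_d9
    rw [div_le_iff₀ hN0]
    push_cast at e1
    have e3 : (2 : ℝ) ^ 18 = 262144 := by norm_num
    rw [e3] at e1 hNr
    linarith
  have l4 : 1 / (B : ℝ) ≤ 1 / 10000 := by
    refine one_div_le_one_div_of_le (by norm_num) ?_
    linarith
  rw [Real.log_div (by linarith) hw0.ne', one_mul]
  linarith

end Pool.Agent.SX
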