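import Pool.Agent.helper79.SX.Spec

/-! # Project sx (MP_5628fe_nt): module TL0 (the tail at h = 30) -/

set_option autoImplicit false

open Finset ArithmeticFunction

namespace Pool.Agent.SX

theorem TL0_Pr : Pr 30 = {7} := by
  ext p
  unfold Pr
  rw [mem_filter, mem_range, mem_singleton]
  constructor
  · rintro ⟨h1, h2, h3, h4⟩
    by_contra h
    have h5 : 8 ≤ p := by omega
    have h6 : 8 ^ 10 ≤ p ^ 10 := Nat.pow_le_pow_left h5 10
    norm_num at h4 h6
    omega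
  · rintro rfl
    norm_num

theorem TL0_V : V (Pr 30) = 5 / 7 := by
  rw [TL0_Pr]
  unfold V
  rw [prod_singleton]
  norm_num

theorem TL0_g {D : Finset ℕ} (hD : ∀ p ∈ D, p.Prime ∧ 2 ^ 30 ≤ p ^ 10) :
    0 ≤ g D ∧ (2 : ℝ) ^ D.card = g D * ∏ p ∈ D, (p : ℝ) := by
  constructor
  · unfold g
    exact prod_nonneg fun p _ => by positivity
  · unfold g
    rw [← prod_mul_distrib, ← prod_const]
    refine prod_congr rfl fun p hp => ?_
    have h0 : (p : ℝ) ≠ 0 := by
      have := (hD p hp).1.pos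
      positivity
    field_simp

theorem TL0_S (A D : Finset ℕ) : S A {7} D + S A ∅ (insert 7 D) = S A ∅ D := by
  unfold S
  have h1 : A.filter (fun m => (∀ p ∈ D, p ∣ m * (m + 6)) ∧ ∀ p ∈ ({7} : Finset ℕ),
      ¬ p ∣ m * (m + 6)) =
      (A.filter fun m => (∀ p ∈ D, p ∣ m * (m + 6)) ∧ ∀ p ∈ (∅ : Finset ℕ),
        ¬ p ∣ m * (m + 6)).filter fun m => ¬ 7 ∣ m * (m + 6) := by
    ext m
    simp only [mem_filter, mem_singleton, forall_eq, notMem_empty, false_imp_iff,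
      implies_true, and_true]
    tauto
  have h2 : A.filter (fun m => (∀ p ∈ insert 7 D, p ∣ m * (m + 6)) ∧
      ∀ p ∈ (∅ : Finset ℕ), ¬ p ∣ m * (m + 6)) =
      (A.filter fun m => (∀ p ∈ D, p ∣ m * (m + 6)) ∧ ∀ p ∈ (∅ : Finset ℕ),
        ¬ p ∣ m * (m + 6)).filter fun m => 7 ∣ m * (m + 6) := by
    ext m
    simp only [mem_filter, mem_insert, forall_eq_or_imp, notMem_empty, false_imp_iff,
      implies_true, and_true]
    tauto
  rw [h1, h2, add_comm]
  exact card_filter_add_card_filter_not _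

theorem TL0 : TL0_stmt := by
  intro m hm
  have key : ∀ (A : Finset ℕ) (X : ℝ), Dens A X → ∀ D : Finset ℕ,
      (∀ p ∈ D, p.Prime ∧ 2 ^ 30 ≤ p ^ 10) →
      (2 : ℝ) ^ (m * 30) * (∏ p ∈ D, (p : ℝ)) ^ 10 ≤ X ^ 10 →
      |(S A (Pr 30) D : ℝ) - X * g D * (5 / 7)| ≤ X * g D * (5 / 7) * (600 / 3 ^ m) := by
    intro A X hA D hD hsz
    obtain ⟨hX, hdens⟩ := hA
    obtain ⟨hg0, hg⟩ := TL0_g hD
    have h7 : 7 ∉ D := by
      intro h
      have := (hD 7 h).2
      norm_num at this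
    have hD7 : ∀ p ∈ D, p.Prime ∧ 7 ≤ p := by
      intro p hp
      refine ⟨(hD p hp).1, ?_⟩
      by_contra hc
      have h1 : p ≤ 6 := by omega
      have h2 : p ^ 10 ≤ 6 ^ 10 := Nat.pow_le_pow_left h1 10
      have h3 := (hD p hp).2
      norm_num at h2 h3
      omega
    have hD7' : ∀ p ∈ insert 7 D, p.Prime ∧ 7 ≤ p := by
      intro p hp
      rw [mem_insert] at hp
      rcases hp with rfl | hp
      · exact ⟨by norm_num, le_rfl⟩
      · exact hD7 p hp
    have e1 := hdens D hD7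
    have e2 := hdens (insert 7 D) hD7'
    have e3 : g (insert 7 D) = 2 / 7 * g D := by
      unfold g
      rw [prod_insert h7]
      norm_num
    rw [card_insert_of_notMem h7, pow_succ, e3] at e2
    have e4 : (S A {7} D : ℝ) + (S A ∅ (insert 7 D) : ℝ) = (S A ∅ D : ℝ) := by
      exact_mod_cast TL0_S A D
    rw [TL0_Pr]
    have hP0 : 0 ≤ ∏ p ∈ D, (p : ℝ) := prod_nonneg fun p _ => by positivity
    have h8 : (8 : ℝ) ^ m * ∏ p ∈ D, (p : ℝ) ≤ X := by
      have h9 : ((8 : ℝ) ^ m * ∏ p ∈ D, (p : ℝ)) ^ 10 ≤ X ^ 10 := by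
        have h10 : ((8 : ℝ) ^ m * ∏ p ∈ D, (p : ℝ)) ^ 10 =
            (2 : ℝ) ^ (m * 30) * (∏ p ∈ D, (p : ℝ)) ^ 10 := by
          rw [mul_pow, ← pow_mul, mul_comm m 30, pow_mul (2 : ℝ) 30 m, mul_comm m 10,
            pow_mul (8 : ℝ) 10 m]
          norm_num
        rw [h10]
        exact hsz
      exact le_of_pow_le_pow_left₀ (by norm_num) hX.le h9
    have h9 : (3 : ℝ) ^ m * (3 * (2 : ℝ) ^ D.card) ≤ X * g D * (5 / 7) * 600 := by
      rw [hg]
      have h10 : (3 : ℝ) ^ m * ∏ p ∈ D, (p : ℝ) ≤ X := by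
        refine le_trans (mul_le_mul_of_nonneg_right ?_ hP0) h8
        exact pow_le_pow_left₀ (by norm_num) (by norm_num) m
      have h11 : g D * ((3 : ℝ) ^ m * ∏ p ∈ D, (p : ℝ)) ≤ g D * X :=
        mul_le_mul_of_nonneg_left h10 hg0
      have h12 : 0 ≤ g D * X := mul_nonneg hg0 hX.le
      nlinarith
    have h13 : 3 * (2 : ℝ) ^ D.card ≤ X * g D * (5 / 7) * (600 / 3 ^ m) := by
      rw [mul_div_assoc', le_div_iff₀ (by positivity)]
      rw [mul_comm]
      exact h9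
    refine le_trans ?_ h13
    rw [abs_le] at e1 e2 ⊢
    constructor <;> linarith
  refine ⟨?_, ?_⟩
  · intro A X hA D hD hsz
    have h := key A X hA D hD hsz
    rw [abs_le] at h
    rw [TL0_V]
    linarith
  · intro A X hA D hD hsz
    have h := key A X hA D hD hsz
    rw [abs_le] at h
    rw [TL0_V]
    linarith

end Pool.Agent.SX
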